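import Pool.Agent.W79.BP.Defs

/-!
Project BP (MP_ce44ee_pr), part BP-STP: basic facts on the chain.
-/

set_option autoImplicit false

namespace Pool.Agent.W137.BP

open Pool.Agent.W79.BP
open scoped Classical

/-- the transition kernel -/
noncomputable def PK {n : ℕ} (γ β : SimpleGraph (Fin n)) : ℝ :=
  ∑ σ ∈ Au γ ∩ Au β, 1 / (((Au γ).card : ℝ) * ((Fx σ).card : ℝ))

lemma mem_Au_iff {n : ℕ} (σ : Equiv.Perm (Fin n)) (β : SimpleGraph (Fin n)) :
    σ ∈ Au β ↔ β ∈ Fx σ := by
  unfold Au Fx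
  simp

lemma one_mem_Au {n : ℕ} (γ : SimpleGraph (Fin n)) : (1 : Equiv.Perm (Fin n)) ∈ Au γ := by
  unfold Au
  simp only [Finset.mem_filter, Finset.mem_univ, true_and]
  ext u v
  simp

lemma Au_pos {n : ℕ} (γ : SimpleGraph (Fin n)) : (0 : ℝ) < (Au γ).card := by
  exact_mod_cast Finset.card_pos.2 ⟨1, one_mem_Au γ⟩

lemma Fx_pos {n : ℕ} (σ : Equiv.Perm (Fin n)) : (0 : ℝ) < (Fx σ).card := by
  have : (⊥ : SimpleGraph (Fin n)) ∈ Fx σ := by
    unfold Fx
    simp only [Finset.mem_filter, Finset.mem_univ, true_and]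
    ext u v
    simp
  exact_mod_cast Finset.card_pos.2 ⟨_, this⟩

lemma PK_eq {n : ℕ} (γ β : SimpleGraph (Fin n)) :
    PK γ β = ∑ σ ∈ Au γ, if σ ∈ Au β then 1 / (((Au γ).card : ℝ) * ((Fx σ).card : ℝ)) else 0 := by
  unfold PK
  rw [← Finset.sum_filter, Finset.filter_mem_eq_inter]

lemma PK_eq' {n : ℕ} (γ β : SimpleGraph (Fin n)) :
    PK γ β = ∑ σ ∈ Au β, if σ ∈ Au γ then 1 / (((Au γ).card : ℝ) * ((Fx σ).card : ℝ)) else 0 := by
  unfold PK
  rw [← Finset.sum_filter, Finset.filter_mem_eq_inter, Finset.inter_comm]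

lemma row_sum {n : ℕ} (γ : SimpleGraph (Fin n)) : ∑ β : SimpleGraph (Fin n), PK γ β = 1 := by
  simp_rw [PK_eq]
  rw [Finset.sum_comm]
  have h1 : ∀ σ ∈ Au γ, (∑ β : SimpleGraph (Fin n),
      if σ ∈ Au β then 1 / (((Au γ).card : ℝ) * ((Fx σ).card : ℝ)) else 0) =
        1 / ((Au γ).card : ℝ) := by
    intro σ _
    simp_rw [mem_Au_iff]
    rw [← Finset.sum_filter, Finset.sum_const, Finset.filter_mem_eq_inter, Finset.univ_inter,
      nsmul_eq_mul]
    have := (Fx_pos σ).ne'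
    have := (Au_pos γ).ne'
    field_simp
  rw [Finset.sum_congr rfl h1, Finset.sum_const, nsmul_eq_mul]
  have := (Au_pos γ).ne'
  field_simp

lemma col_sum {n : ℕ} (β : SimpleGraph (Fin n)) :
    ∑ γ : SimpleGraph (Fin n), ((Au γ).card : ℝ) * PK γ β = (Au β).card := by
  simp_rw [PK_eq', Finset.mul_sum]
  rw [Finset.sum_comm]
  have h1 : ∀ σ ∈ Au β, (∑ γ : SimpleGraph (Fin n), ((Au γ).card : ℝ) *
      if σ ∈ Au γ then 1 / (((Au γ).card : ℝ) * ((Fx σ).card : ℝ)) else 0) = 1 := by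
    intro σ _
    have h2 : ∀ γ : SimpleGraph (Fin n), (((Au γ).card : ℝ) *
      if σ ∈ Au γ then 1 / (((Au γ).card : ℝ) * ((Fx σ).card : ℝ)) else 0) =
        if γ ∈ Fx σ then 1 / ((Fx σ).card : ℝ) else 0 := by
      intro γ
      by_cases h : σ ∈ Au γ
      · rw [if_pos h, if_pos ((mem_Au_iff σ γ).1 h)]
        have := (Fx_pos σ).ne'
        have := (Au_pos γ).ne'
        field_simp
      · rw [if_neg h, if_neg (fun h' => h ((mem_Au_iff σ γ).2 h')), mul_zero]
    simp_rw [h2]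
    rw [← Finset.sum_filter, Finset.sum_const, Finset.filter_mem_eq_inter, Finset.univ_inter,
      nsmul_eq_mul]
    have := (Fx_pos σ).ne'
    field_simp
  rw [Finset.sum_congr rfl h1, Finset.sum_const, nsmul_eq_mul, mul_one]

lemma PK_nonneg {n : ℕ} (γ β : SimpleGraph (Fin n)) : 0 ≤ PK γ β := by
  unfold PK
  exact Finset.sum_nonneg fun σ _ => by positivity

lemma PK_ge {n : ℕ} (γ β : SimpleGraph (Fin n)) :
    1 / ((n.factorial : ℝ) * (Fintype.card (SimpleGraph (Fin n)) : ℝ)) ≤ PK γ β := by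
  have h1 : 1 / (((Au γ).card : ℝ) * ((Fx (1 : Equiv.Perm (Fin n))).card : ℝ)) ≤ PK γ β := by
    unfold PK
    refine Finset.single_le_sum (f := fun σ => 1 / (((Au γ).card : ℝ) * ((Fx σ).card : ℝ)))
      (fun σ _ => by positivity) ?_
    exact Finset.mem_inter.2 ⟨one_mem_Au γ, one_mem_Au β⟩
  refine le_trans ?_ h1
  have h2 : ((Au γ).card : ℝ) ≤ n.factorial := by
    have : (Au γ).card ≤ Fintype.card (Equiv.Perm (Fin n)) := Finset.card_le_univ _
    rw [Fintype.card_perm, Fintype.card_fin] at this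
    exact_mod_cast this
  have h3 : ((Fx (1 : Equiv.Perm (Fin n))).card : ℝ) ≤ Fintype.card (SimpleGraph (Fin n)) := by
    exact_mod_cast Finset.card_le_univ _
  have h4 := Au_pos γ
  have h5 := Fx_pos (1 : Equiv.Perm (Fin n))
  apply one_div_le_one_div_of_le (by positivity)
  exact mul_le_mul h2 h3 h5.le (by positivity)

lemma stp_eq {n : ℕ} (f : SimpleGraph (Fin n) → ℝ) (β : SimpleGraph (Fin n)) :
    stp f β = ∑ γ, f γ * PK γ β := rfl

theorem main : S_STP := by
  intro n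
  have hZ : (0 : ℝ) < ∑ γ : SimpleGraph (Fin n), ((Au γ).card : ℝ) :=
    Finset.sum_pos (fun γ _ => Au_pos γ) ⟨⊥, Finset.mem_univ _⟩
  have hsum : ∀ f : SimpleGraph (Fin n) → ℝ, ∑ β, ∑ γ, f γ * PK γ β = ∑ γ, f γ := by
    intro f
    rw [Finset.sum_comm]
    refine Finset.sum_congr rfl fun γ _ => ?_
    rw [← Finset.mul_sum, row_sum, mul_one]
  refine ⟨?_, ?_, ?_, ?_, ?_, ?_, ?_⟩
  · intro f
    simp_rw [stp_eq]
    exact hsum f
  · funext β
    rw [stp_eq]
    unfold st
    rw [← col_sum β, Finset.sum_div]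
    refine Finset.sum_congr rfl fun γ _ => ?_
    ring
  · unfold st
    rw [← Finset.sum_div, div_self hZ.ne']
  · intro β
    unfold st
    exact div_nonneg (Au_pos β).le hZ.le
  · intro f g c
    funext β
    rw [stp_eq, stp_eq, stp_eq, Finset.mul_sum, ← Finset.sum_add_distrib]
    refine Finset.sum_congr rfl fun γ _ => ?_
    ring
  · intro f
    calc ∑ β, |stp f β| ≤ ∑ β, ∑ γ, |f γ| * PK γ β := by
          refine Finset.sum_le_sum fun β _ => ?_
          rw [stp_eq]
          refine (Finset.abs_sum_le_sum_abs _ _).trans (le_of_eq ?_)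
          refine Finset.sum_congr rfl fun γ _ => ?_
          rw [abs_mul, abs_of_nonneg (PK_nonneg γ β)]
      _ = ∑ β, |f β| := hsum (fun γ => |f γ|)
  · intro f hf
    set c : ℝ := 1 / ((n.factorial : ℝ) * (Fintype.card (SimpleGraph (Fin n)) : ℝ)) with hc
    have hG : (0 : ℝ) < (Fintype.card (SimpleGraph (Fin n)) : ℝ) := by
      exact_mod_cast Fintype.card_pos_iff.2 ⟨(⊥ : SimpleGraph (Fin n))⟩
    have hn : (0 : ℝ) < (n.factorial : ℝ) := by exact_mod_cast n.factorial_pos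
    calc ∑ β, |stp f β| ≤ ∑ β, ∑ γ, |f γ| * (PK γ β - c) := by
          refine Finset.sum_le_sum fun β _ => ?_
          have h1 : stp f β = ∑ γ, f γ * (PK γ β - c) := by
            rw [stp_eq]
            have : ∑ γ, f γ * (PK γ β - c) = ∑ γ, f γ * PK γ β - (∑ γ, f γ) * c := by
              rw [Finset.sum_mul, ← Finset.sum_sub_distrib]
              refine Finset.sum_congr rfl fun γ _ => ?_
              ring
            rw [this, hf]
            ring
          rw [h1]
          refine (Finset.abs_sum_le_sum_abs _ _).trans (le_of_eq ?_)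
          refine Finset.sum_congr rfl fun γ _ => ?_
          rw [abs_mul, abs_of_nonneg (sub_nonneg.2 (PK_ge γ β))]
      _ = ∑ γ, |f γ| * (1 - 1 / (n.factorial : ℝ)) := by
          rw [Finset.sum_comm]
          refine Finset.sum_congr rfl fun γ _ => ?_
          rw [← Finset.mul_sum, Finset.sum_sub_distrib, row_sum, Finset.sum_const,
            Finset.card_univ, nsmul_eq_mul, hc]
          congr 2
          field_simp
      _ = (1 - 1 / (n.factorial : ℝ)) * ∑ β, |f β| := by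
          rw [← Finset.sum_mul, mul_comm]

end Pool.Agent.W137.BP
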